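import Mathlib

/-! # Configurations on the lattice of dimension r with local periods -/

set_option autoImplicit false

namespace Pool.Agent.V7H37.HC

variable {r : ℕ} {A : Type*}

/-- the real vector of an integer vector -/
def toR (w : Fin r → ℤ) : Fin r → ℝ := fun t => (w t : ℝ)

/-- `x` belongs to the box with the half sides `ρ R t` -/
def Le (R : Fin r → ℝ) (ρ : ℝ) (x : Fin r → ℝ) : Prop := ∀ t, |x t| ≤ ρ * R t

/-- internal periods of the box of radius `ρ` about `z` -/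
def Per (c : (Fin r → ℤ) → A) (R : Fin r → ℝ) (ρ : ℝ) (z : Fin r → ℤ) : Set (Fin r → ℤ) :=
  {w | Le R 1 (toR w) ∧ ∀ u, Le R ρ (toR (u - z)) → Le R ρ (toR (u + w - z)) → c (u + w) = c u}

/-- the real span of the internal periods -/
def Sp (c : (Fin r → ℤ) → A) (R : Fin r → ℝ) (ρ : ℝ) (z : Fin r → ℤ) :
    Submodule ℝ (Fin r → ℝ) := Submodule.span ℝ (toR '' Per c R ρ z)

/-- the box of radius `a` fattened by the box of radius `b` in the subspace `P` -/
def Tube (R : Fin r → ℝ) (a b : ℝ) (P : Submodule ℝ (Fin r → ℝ)) (z : Fin r → ℤ) :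
    Set (Fin r → ℤ) :=
  {u | ∃ q p : Fin r → ℝ, Le R a q ∧ p ∈ P ∧ Le R b p ∧ toR (u - z) = q + p}

lemma toR_add (x y : Fin r → ℤ) : toR (x + y) = toR x + toR y := by
  funext t; simp [toR]

lemma toR_sub (x y : Fin r → ℤ) : toR (x - y) = toR x - toR y := by
  funext t; simp [toR]

lemma toR_sum {ι : Type*} (s : Finset ι) (n : ι → ℤ) (w : ι → Fin r → ℤ) :
    toR (∑ i ∈ s, n i • w i) = ∑ i ∈ s, (n i : ℝ) • toR (w i) := by
  funext t; simp [toR]

lemma Le.add {R : Fin r → ℝ} {ρ σ : ℝ} {x y : Fin r → ℝ} (hx : Le R ρ x) (hy : Le R σ y) :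
    Le R (ρ + σ) (x + y) := by
  intro t
  have h1 := hx t
  have h2 := hy t
  calc |(x + y) t| ≤ |x t| + |y t| := abs_add_le _ _
    _ ≤ (ρ + σ) * R t := by linarith

lemma Le.neg {R : Fin r → ℝ} {ρ : ℝ} {x : Fin r → ℝ} (hx : Le R ρ x) : Le R ρ (-x) := by
  intro t
  rw [Pi.neg_apply, abs_neg]
  exact hx t

lemma Le.sub {R : Fin r → ℝ} {ρ σ : ℝ} {x y : Fin r → ℝ} (hx : Le R ρ x) (hy : Le R σ y) :
    Le R (ρ + σ) (x - y) := by
  rw [sub_eq_add_neg]
  exact hx.add hy.neg

lemma Le.mono {R : Fin r → ℝ} (hR : ∀ t, 0 ≤ R t) {ρ σ : ℝ} {x : Fin r → ℝ} (hx : Le R ρ x)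
    (h : ρ ≤ σ) : Le R σ x :=
  fun t => (hx t).trans (mul_le_mul_of_nonneg_right h (hR t))

lemma Le.smul {R : Fin r → ℝ} {ρ s σ : ℝ} {x : Fin r → ℝ} (hx : Le R ρ x) (hs : |s| ≤ σ) :
    Le R (σ * ρ) (s • x) := by
  intro t
  rw [Pi.smul_apply, smul_eq_mul, abs_mul, mul_assoc]
  exact mul_le_mul hs (hx t) (abs_nonneg _) ((abs_nonneg _).trans hs)

lemma Le.sum {R : Fin r → ℝ} {ι : Type*} (s : Finset ι) {ρ : ℝ} {x : ι → Fin r → ℝ}
    (hx : ∀ i ∈ s, Le R ρ (x i)) : Le R (s.card * ρ) (∑ i ∈ s, x i) := by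
  intro t
  rw [Finset.sum_apply]
  calc |∑ i ∈ s, x i t| ≤ ∑ i ∈ s, |x i t| := Finset.abs_sum_le_sum_abs _ _
    _ ≤ ∑ _i ∈ s, ρ * R t := Finset.sum_le_sum fun i hi => hx i hi t
    _ = s.card * ρ * R t := by rw [Finset.sum_const, nsmul_eq_mul, mul_assoc]

lemma Per.anti {c : (Fin r → ℤ) → A} {R : Fin r → ℝ} (hR : ∀ t, 0 ≤ R t) {ρ σ : ℝ} (h : ρ ≤ σ)
    (z : Fin r → ℤ) : Per c R σ z ⊆ Per c R ρ z :=
  fun _ hw => ⟨hw.1, fun u h1 h2 => hw.2 u (h1.mono hR h) (h2.mono hR h)⟩

lemma Sp.anti {c : (Fin r → ℤ) → A} {R : Fin r → ℝ} (hR : ∀ t, 0 ≤ R t) {ρ σ : ℝ} (h : ρ ≤ σ)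
    (z : Fin r → ℤ) : Sp c R σ z ≤ Sp c R ρ z :=
  Submodule.span_mono (Set.image_mono (Per.anti hR h z))

/-- **Walking along the periods.** -/
theorem path_aux {c : (Fin r → ℤ) → A} {R : Fin r → ℝ} (hR : ∀ t, 0 ≤ R t) {ι : Type*} [Fintype ι]
    (hι : Fintype.card ι ≤ r) {y u v : Fin r → ℤ} {q : Fin r → ℝ} {a b ρ : ℝ}
    (w : ι → Fin r → ℤ) (hw : ∀ i, w i ∈ Per c R ρ y) (f : ι → ℝ) (hq : Le R a q)
    (hp : Le R b (∑ i, f i • toR (w i))) (hu : toR (u - y) = q + ∑ i, f i • toR (w i))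
    (hv : Le R 1 (toR v)) (hρ : a + b + r + 1 ≤ ρ) :
    ∃ n : ι → ℤ, (∀ i, |f i - n i| ≤ 1 / 2) ∧ c (u - ∑ i, n i • w i) = c u ∧
      c (u - ∑ i, n i • w i + v) = c (u + v) := by
  classical
  set X : (ι → ℤ) → (Fin r → ℤ) := fun n => u - ∑ i, n i • w i with hX
  -- the points near the segment
  have hbox : ∀ (n : ι → ℤ) (τ : ℝ), 0 ≤ τ → τ ≤ 1 → (∀ i, |τ * f i - n i| ≤ 1) →
      Le R ρ (toR (X n - y)) ∧ Le R ρ (toR (X n + v - y)) := by
    intro n τ h0 h1 hn
    have e1 : toR (X n - y) = q + ((1 - τ) • (∑ i, f i • toR (w i)) +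
        ∑ i, (τ * f i - n i) • toR (w i)) := by
      have e2 : X n - y = (u - y) - ∑ i, n i • w i := by
        simp only [hX]; abel
      rw [e2, toR_sub, hu, toR_sum, sub_smul, one_smul]
      simp only [sub_smul, mul_smul, Finset.sum_sub_distrib, ← Finset.smul_sum]
      abel
    have h2 : Le R (a + (1 * b + Fintype.card ι * (1 * 1))) (toR (X n - y)) := by
      rw [e1]
      refine hq.add ((hp.smul (by rw [abs_le]; constructor <;> linarith)).add ?_)
      exact Le.sum Finset.univ fun i _ => (hw i).1.smul (hn i)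
    have h3 : (Fintype.card ι : ℝ) ≤ r := by exact_mod_cast hι
    have h4 : Le R (a + b + r) (toR (X n - y)) := h2.mono hR (by linarith)
    refine ⟨h4.mono hR (by linarith), ?_⟩
    have e3 : X n + v - y = (X n - y) + v := by abel
    rw [e3, toR_add]
    exact (h4.add hv).mono hR hρ
  -- one step
  have hstep : ∀ (n n' : ι → ℤ) (τ : ℝ), 0 ≤ τ → τ ≤ 1 → (∀ i, |τ * f i - n i| ≤ 1) →
      (∀ i, |τ * f i - n' i| ≤ 1) → (∃ i, X n' = X n + w i ∨ X n = X n' + w i) →
      c (X n') = c (X n) ∧ c (X n' + v) = c (X n + v) := by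
    intro n n' τ h0 h1 hn hn' ⟨i, hi⟩
    obtain ⟨b1, b2⟩ := hbox n τ h0 h1 hn
    obtain ⟨b3, b4⟩ := hbox n' τ h0 h1 hn'
    have key : ∀ x x' : Fin r → ℤ, x' = x + w i → Le R ρ (toR (x - y)) → Le R ρ (toR (x' - y)) →
        Le R ρ (toR (x + v - y)) → Le R ρ (toR (x' + v - y)) →
        c x' = c x ∧ c (x' + v) = c (x + v) := by
      intro x x' hx' c1 c2 c3 c4
      subst hx'
      refine ⟨(hw i).2 x c1 c2, ?_⟩
      have e : x + w i + v = x + v + w i := by abel
      rw [e] at c4 ⊢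
      exact (hw i).2 (x + v) c3 c4
    rcases hi with hi | hi
    · exact key _ _ hi b1 b3 b2 b4
    · obtain ⟨h5, h6⟩ := key _ _ hi b3 b1 b4 b2
      exact ⟨h5.symm, h6.symm⟩
  -- many steps at one time
  have hsteps : ∀ (n n' : ι → ℤ) (τ : ℝ), 0 ≤ τ → τ ≤ 1 → (∀ i, |τ * f i - n i| ≤ 1) →
      (∀ i, |τ * f i - n' i| ≤ 1) → (∀ i, |n' i - n i| ≤ 1) →
      c (X n') = c (X n) ∧ c (X n' + v) = c (X n + v) := by
    intro n n' τ h0 h1 hn hn' hnn
    have hJ : ∀ J : Finset ι, c (X (fun i => if i ∈ J then n' i else n i)) = c (X n) ∧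
        c (X (fun i => if i ∈ J then n' i else n i) + v) = c (X n + v) := by
      intro J
      induction J using Finset.induction_on with
      | empty => simp
      | insert j J hj ih =>
        have hm : ∀ (J : Finset ι) i, |τ * f i - ((if i ∈ J then n' i else n i : ℤ) : ℝ)| ≤ 1 := by
          intro J i
          by_cases hi : i ∈ J
          · rw [if_pos hi]; exact hn' i
          · rw [if_neg hi]; exact hn i
        have hsum : ∀ m : ι → ℤ, ∑ i, m i • w i = m j • w j + ∑ i ∈ Finset.univ.erase j, m i • w i :=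
          fun m => (Finset.add_sum_erase _ _ (Finset.mem_univ j)).symm
        have hrest : ∑ i ∈ Finset.univ.erase j, (if i ∈ insert j J then n' i else n i) • w i =
            ∑ i ∈ Finset.univ.erase j, (if i ∈ J then n' i else n i) • w i := by
          refine Finset.sum_congr rfl fun i hi => ?_
          have hij : i ≠ j := (Finset.mem_erase.1 hi).1
          simp [hij]
        have e1 : X (fun i => if i ∈ insert j J then n' i else n i) =
            X (fun i => if i ∈ J then n' i else n i) - (n' j - n j) • w j := by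
          simp only [hX]
          rw [hsum, hsum (fun i => if i ∈ J then n' i else n i), hrest]
          simp only [Finset.mem_insert_self, if_true, hj, if_false, sub_smul]
          abel
        have h2 : n' j - n j = 0 ∨ n' j - n j = 1 ∨ n' j - n j = -1 := by
          have := abs_le.1 (hnn j)
          omega
        have h3 : c (X (fun i => if i ∈ insert j J then n' i else n i)) =
            c (X (fun i => if i ∈ J then n' i else n i)) ∧
            c (X (fun i => if i ∈ insert j J then n' i else n i) + v) =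
            c (X (fun i => if i ∈ J then n' i else n i) + v) := by
          rcases h2 with h2 | h2 | h2
          · rw [e1, h2, zero_smul, sub_zero]
            exact ⟨rfl, rfl⟩
          · refine hstep _ _ τ h0 h1 (hm J) (hm (insert j J)) ⟨j, Or.inr ?_⟩
            rw [e1, h2, one_smul]; abel
          · refine hstep _ _ τ h0 h1 (hm J) (hm (insert j J)) ⟨j, Or.inl ?_⟩
            rw [e1, h2, neg_one_smul]; abel
        exact ⟨h3.1.trans ih.1, h3.2.trans ih.2⟩
    have := hJ Finset.univ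
    simpa using this
  -- the number of times
  obtain ⟨N, hN0, hN⟩ : ∃ N : ℕ, 0 < N ∧ ∀ i, |f i| ≤ N / 2 := by
    obtain ⟨N, hN⟩ := exists_nat_gt (2 * ∑ i, |f i|)
    refine ⟨N + 1, Nat.succ_pos _, fun i => ?_⟩
    have h1 : |f i| ≤ ∑ i, |f i| :=
      Finset.single_le_sum (f := fun i => |f i|) (fun i _ => abs_nonneg _) (Finset.mem_univ i)
    push_cast
    linarith
  have hNpos : (0 : ℝ) < N := by exact_mod_cast hN0
  have hmain : ∀ k : ℕ, k ≤ N → c (X (fun i => round ((k : ℝ) / N * f i))) = c u ∧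
      c (X (fun i => round ((k : ℝ) / N * f i)) + v) = c (u + v) := by
    intro k
    induction k with
    | zero =>
      intro _
      have e : X (fun i => round (((0 : ℕ) : ℝ) / N * f i)) = u := by
        simp [hX]
      rw [e]
      exact ⟨rfl, rfl⟩
    | succ k ih =>
      intro hk
      obtain ⟨h1, h2⟩ := ih (by omega)
      have hkN : (k : ℝ) + 1 ≤ N := by exact_mod_cast hk
      have hd : ∀ i, |((k + 1 : ℕ) : ℝ) / N * f i - (k : ℝ) / N * f i| ≤ 1 / 2 := by
        intro i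
        have e : ((k + 1 : ℕ) : ℝ) / N * f i - (k : ℝ) / N * f i = f i / N := by
          push_cast; field_simp; ring
        rw [e, abs_div, abs_of_pos hNpos, div_le_iff₀ hNpos]
        have := hN i
        linarith
      have hr1 : ∀ i, |(k : ℝ) / N * f i - round ((k : ℝ) / N * f i)| ≤ 1 / 2 :=
        fun i => abs_sub_round _
      have hr2 : ∀ i, |((k + 1 : ℕ) : ℝ) / N * f i - round (((k + 1 : ℕ) : ℝ) / N * f i)| ≤ 1 / 2 :=
        fun i => abs_sub_round _
      have h3 := hsteps (fun i => round ((k : ℝ) / N * f i))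
        (fun i => round (((k + 1 : ℕ) : ℝ) / N * f i)) ((k : ℝ) / N) (by positivity)
        (by rw [div_le_one hNpos]; linarith) (fun i => (hr1 i).trans (by norm_num))
        (fun i => by
          have a1 := abs_le.1 (hd i)
          have a2 := abs_le.1 (hr2 i)
          rw [abs_le]
          constructor <;> linarith) (fun i => by
          have a1 := abs_le.1 (hd i)
          have a2 := abs_le.1 (hr2 i)
          have a3 := abs_le.1 (hr1 i)
          have a4 : ((round (((k + 1 : ℕ) : ℝ) / N * f i) - round ((k : ℝ) / N * f i) : ℤ) : ℝ) < 2 := by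
            push_cast at a1 a2 a3 ⊢
            linarith
          have a5 : (-2 : ℝ) < ((round (((k + 1 : ℕ) : ℝ) / N * f i) -
              round ((k : ℝ) / N * f i) : ℤ) : ℝ) := by
            push_cast at a1 a2 a3 ⊢
            linarith
          have a6 : round (((k + 1 : ℕ) : ℝ) / N * f i) - round ((k : ℝ) / N * f i) < 2 := by
            exact_mod_cast a4
          have a7 : -2 < round (((k + 1 : ℕ) : ℝ) / N * f i) - round ((k : ℝ) / N * f i) := by
            exact_mod_cast a5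
          rw [abs_le]
          constructor <;> omega)
      exact ⟨h3.1.trans h1, h3.2.trans h2⟩
  refine ⟨fun i => round ((N : ℝ) / N * f i), fun i => ?_, (hmain N le_rfl).1, (hmain N le_rfl).2⟩
  show |f i - ((round ((N : ℝ) / N * f i) : ℤ) : ℝ)| ≤ 1 / 2
  rw [div_self hNpos.ne', one_mul]
  exact abs_sub_round _

theorem path {c : (Fin r → ℤ) → A} {R : Fin r → ℝ} (hR : ∀ t, 0 ≤ R t)
    {y u v : Fin r → ℤ} {q p : Fin r → ℝ} {a b ρ : ℝ} (hq : Le R a q)
    (hpP : p ∈ Sp c R ρ y) (hp : Le R b p) (hu : toR (u - y) = q + p)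
    (hv : Le R 1 (toR v)) (hρ : a + b + r + 1 ≤ ρ) :
    ∃ (u' : Fin r → ℤ) (δ : Fin r → ℝ), c u' = c u ∧ c (u' + v) = c (u + v) ∧
      Le R (r / 2) δ ∧ δ ∈ Sp c R ρ y ∧ toR (u' - y) = q + δ := by
  classical
  obtain ⟨B, hBsub, hBspan, hBli⟩ := exists_linearIndependent ℝ (toR '' Per c R ρ y)
  have hBfin : Fintype B := hBli.setFinite.fintype
  have hcard : Fintype.card B ≤ r := by
    have h1 := hBli.fintype_card_le_finrank
    rwa [Module.finrank_fintype_fun_eq_card, Fintype.card_fin] at h1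
  have hwex : ∀ x : B, ∃ w, w ∈ Per c R ρ y ∧ toR w = (x : Fin r → ℝ) := by
    intro x
    exact hBsub x.2
  choose w hw hwx using hwex
  have hpB : p ∈ Submodule.span ℝ (Set.range (Subtype.val : B → Fin r → ℝ)) := by
    rw [Subtype.range_val, hBspan]
    exact hpP
  obtain ⟨f, hf⟩ := (Submodule.mem_span_range_iff_exists_fun ℝ).1 hpB
  have hf' : ∑ i, f i • toR (w i) = p := by
    rw [← hf]
    exact Finset.sum_congr rfl fun i _ => by rw [hwx]
  obtain ⟨n, hn, h1, h2⟩ := path_aux hR hcard (y := y) (u := u) (v := v) (q := q) (a := a) (b := b)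
    w hw f hq (by rw [hf']; exact hp) (by rw [hf']; exact hu) hv hρ
  refine ⟨u - ∑ i, n i • w i, ∑ i, (f i - n i) • toR (w i), h1, h2, ?_, ?_, ?_⟩
  · have h3 : Le R (Fintype.card B * (1 / 2 * 1)) (∑ i, (f i - n i) • toR (w i)) :=
      Le.sum Finset.univ fun i _ => (hw i).1.smul (hn i)
    have h4 : (Fintype.card B : ℝ) ≤ r := by exact_mod_cast hcard
    exact h3.mono hR (by linarith)
  · refine Submodule.sum_mem _ fun i _ => Submodule.smul_mem _ _ (Submodule.subset_span ?_)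
    exact ⟨w i, hw i, rfl⟩
  · have e2 : u - ∑ i, n i • w i - y = (u - y) - ∑ i, n i • w i := by abel
    rw [e2, toR_sub, hu, toR_sum, ← hf']
    simp only [sub_smul, Finset.sum_sub_distrib]
    abel

/-- **One step of the strip.** -/
theorem tube_step {c : (Fin r → ℤ) → A} {R : Fin r → ℝ} (hR : ∀ t, 0 ≤ R t)
    {y v : Fin r → ℤ} {a ρ : ℝ} {P : Submodule ℝ (Fin r → ℝ)} (hv : Le R 1 (toR v))
    (hvP : toR v ∈ P) (hP : Sp c R ρ (y + v) = P) (hρ : a + (r / 2 + 1) + r + 1 ≤ ρ)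
    (h : ∀ u ∈ Tube R a (r / 2 + 1) P y, c (u + v) = c u) :
    ∀ u ∈ Tube R a (r / 2 + 1) P (y + v), c (u + v) = c u := by
  rintro u ⟨q, p, hq, hpP, hp, hu⟩
  obtain ⟨u', δ, h1, h2, h3, h4, h5⟩ := path (c := c) hR (y := y + v) (u := u) (v := v) (ρ := ρ) hq
    (by rw [hP]; exact hpP) hp hu hv hρ
  rw [hP] at h4
  have h6 : c (u' + v) = c u' := by
    refine h u' ⟨q, δ + toR v, hq, P.add_mem h4 hvP, h3.add hv, ?_⟩
    have e : u' - y = (u' - (y + v)) + v := by abel
    rw [e, toR_add, h5, add_assoc]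
  rw [← h2, h6, h1]

/-- **The strip from one position.** -/
theorem chain {c : (Fin r → ℤ) → A} {R : Fin r → ℝ} (hR : ∀ t, 0 ≤ R t)
    {z v : Fin r → ℤ} {a ρ : ℝ} (hρ : a + (r / 2 + 1) + r + 1 ≤ ρ)
    (hv : v ∈ Per c R ρ z) (hS : Sp c R a z ≤ Sp c R ρ z) (L : ℕ)
    (hL : ∀ j : ℕ, j ≤ L → Module.finrank ℝ (Sp c R ρ z) ≤ Module.finrank ℝ (Sp c R ρ (z + j • v))) :
    ∀ j : ℕ, j ≤ L → ∀ u : Fin r → ℤ, Le R a (toR (u - (z + j • v))) → c (u + v) = c u := by
  set P := Sp c R ρ z with hP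
  have hr0 : (0 : ℝ) ≤ r := Nat.cast_nonneg r
  have hvP : toR v ∈ P := Submodule.subset_span ⟨v, hv, rfl⟩
  have hbox : ∀ (x u : Fin r → ℤ), Le R a (toR (u - x)) → u ∈ Tube R a (r / 2 + 1) P x := by
    intro x u hu
    refine ⟨_, 0, hu, P.zero_mem, fun t => ?_, (add_zero _).symm⟩
    rw [Pi.zero_apply, abs_zero]
    exact mul_nonneg (by positivity) (hR t)
  have key : ∀ j : ℕ, j ≤ L → Sp c R a (z + j • v) ≤ P ∧
      ∀ u ∈ Tube R a (r / 2 + 1) P (z + j • v), c (u + v) = c u := by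
    intro j
    induction j with
    | zero =>
      intro _
      rw [zero_smul, add_zero]
      refine ⟨hS, ?_⟩
      rintro u ⟨q, p, hq, -, hp, hu⟩
      have h1 : Le R (a + (r / 2 + 1)) (toR (u - z)) := by rw [hu]; exact hq.add hp
      refine hv.2 u (h1.mono hR (by linarith)) ?_
      have e : u + v - z = (u - z) + v := by abel
      rw [e, toR_add]
      exact (h1.add hv.1).mono hR (by linarith)
    | succ j ih =>
      intro hj
      obtain ⟨h1, h2⟩ := ih (by omega)
      have e : z + (j + 1) • v = z + j • v + v := by rw [add_smul, one_smul, add_assoc]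
      rw [e]
      have h3 : Sp c R a (z + j • v + v) ≤ P := by
        refine le_trans (Submodule.span_mono (Set.image_mono ?_)) h1
        rintro w ⟨hw1, hw2⟩
        refine ⟨hw1, fun u hu hu' => ?_⟩
        have c1 := h2 u (hbox _ _ hu)
        have c2 := h2 (u + w) (hbox _ _ hu')
        have c3 := hw2 (u + v) (by
          have e : u + v - (z + j • v + v) = u - (z + j • v) := by abel
          rw [e]; exact hu) (by
          have e : u + v + w - (z + j • v + v) = u + w - (z + j • v) := by abel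
          rw [e]; exact hu')
        have e : u + v + w = u + w + v := by abel
        rw [e] at c3
        rw [← c2, c3, c1]
      refine ⟨h3, ?_⟩
      have h4 : Sp c R ρ (z + j • v + v) = P := by
        have h5 : Sp c R ρ (z + j • v + v) ≤ P := (Sp.anti hR (by linarith) _).trans h3
        refine Submodule.eq_of_le_of_finrank_le h5 ?_
        have h6 := hL (j + 1) hj
        rw [e] at h6
        exact h6
      exact tube_step hR hv.1 hvP h4 hρ h2
  intro j hj u hu
  exact (key j hj).2 u (hbox _ _ hu)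

/-- the radii -/
noncomputable def rad (r : ℕ) (i : ℕ) : ℝ := 1 + i * (3 * r / 2 + 2)

/-- **The strip.** -/
theorem strip {c : (Fin r → ℤ) → A} {R : Fin r → ℤ} (hR : ∀ t, 0 ≤ R t) {S : ℤ}
    (hS : ∀ t, R t ≤ S) (L : ℕ) {M : ℤ} (hM : 2 * r * (L * S) ≤ M) (N : Fin r → ℤ)
    (H : ∀ z : Fin r → ℤ, (∀ t, N t ≤ z t ∧ z t ≤ N t + M) →
      ∃ w : Fin r → ℤ, w ≠ 0 ∧ w ∈ Per c (toR R) (rad r r) z) :
    ∃ z v : Fin r → ℤ, (∀ t, N t ≤ z t) ∧ v ≠ 0 ∧ Le (toR R) 1 (toR v) ∧
      ∀ j : ℕ, j ≤ L → ∀ u : Fin r → ℤ, Le (toR R) 1 (toR (u - (z + j • v))) →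
        c (u + v) = c u := by
  classical
  have hRR : ∀ t, 0 ≤ toR R t := fun t => by
    show (0 : ℝ) ≤ (R t : ℝ)
    exact_mod_cast hR t
  -- the windows
  set Ω : ℕ → Set (Fin r → ℤ) := fun i => {z | ∀ t, N t + ((r : ℤ) - i) * (L * S) ≤ z t ∧
    z t ≤ N t + M - ((r : ℤ) - i) * (L * S)} with hΩ
  by_cases hr : r = 0
  · subst hr
    obtain ⟨w, hw, -⟩ := H N (fun t => t.elim0)
    exact absurd (funext fun t => t.elim0) hw
  have hS0 : 0 ≤ S := (hR ⟨0, Nat.pos_of_ne_zero hr⟩).trans (hS _)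
  have hLS : 0 ≤ (L : ℤ) * S := mul_nonneg (by positivity) hS0
  have hne : ∀ i, i ≤ r → (Ω i).Nonempty := by
    intro i hi
    refine ⟨fun t => N t + ((r : ℤ) - i) * (L * S), fun t => ⟨le_rfl, ?_⟩⟩
    have h1 : (0 : ℤ) ≤ (i : ℤ) * (L * S) := mul_nonneg (by positivity) hLS
    show N t + ((r : ℤ) - i) * (L * S) ≤ N t + M - ((r : ℤ) - i) * (L * S)
    nlinarith
  set φ : ℕ → (Fin r → ℤ) → ℕ := fun i z => Module.finrank ℝ (Sp c (toR R) (rad r i) z) with hφ
  set m : ℕ → ℕ := fun i => sInf (φ i '' Ω i) with hm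
  have hmin : ∀ i, i ≤ r → ∃ z ∈ Ω i, φ i z = m i := by
    intro i hi
    exact Nat.sInf_mem ((hne i hi).image _)
  have hmle : ∀ i z, z ∈ Ω i → m i ≤ φ i z := fun i z hz => Nat.sInf_le ⟨z, hz, rfl⟩
  have hrad : ∀ i j : ℕ, i ≤ j → rad r i ≤ rad r j := by
    intro i j hij
    have h1 : (i : ℝ) ≤ j := by exact_mod_cast hij
    have h2 : (0 : ℝ) ≤ 3 * r / 2 + 2 := by positivity
    unfold rad
    nlinarith
  have hΩr : ∀ z ∈ Ω r, ∀ t, N t ≤ z t ∧ z t ≤ N t + M := by
    intro z hz t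
    have := hz t
    rw [sub_self, zero_mul, add_zero, sub_zero] at this
    exact this
  have hΩm : ∀ i, i ≤ r → ∀ z ∈ Ω i, z ∈ Ω r := by
    intro i hi z hz t
    have h1 := hz t
    have h2 : (0 : ℤ) ≤ ((r : ℤ) - i) * (L * S) :=
      mul_nonneg (by have : (i : ℤ) ≤ r := by exact_mod_cast hi
                     linarith) hLS
    rw [sub_self, zero_mul]
    constructor <;> linarith [h1.1, h1.2]
  -- two consecutive radii with the same rank
  obtain ⟨i, hir, hi⟩ : ∃ i, i < r ∧ m i ≤ m (i + 1) := by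
    by_contra hcon
    push Not at hcon
    have h1 : ∀ i, i ≤ r → m i + i ≤ m 0 := by
      intro i
      induction i with
      | zero => intro _; omega
      | succ i ih =>
        intro hi
        have := ih (by omega)
        have := hcon i (by omega)
        omega
    have h2 := h1 r le_rfl
    have h3 : m 0 ≤ r := by
      obtain ⟨z, -, hz⟩ := hmin 0 (Nat.zero_le _)
      rw [← hz]
      have := Submodule.finrank_le (Sp c (toR R) (rad r 0) z)
      rwa [Module.finrank_fintype_fun_eq_card, Fintype.card_fin] at this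
    have h4 : m r = 0 := by omega
    obtain ⟨z, hz, hz0⟩ := hmin r le_rfl
    rw [h4] at hz0
    have h5 : Sp c (toR R) (rad r r) z = ⊥ := Submodule.finrank_eq_zero.1 hz0
    obtain ⟨w, hw0, hw⟩ := H z (hΩr z hz)
    have h6 : toR w ∈ Sp c (toR R) (rad r r) z := Submodule.subset_span ⟨w, hw, rfl⟩
    rw [h5, Submodule.mem_bot] at h6
    apply hw0
    funext t
    have := congrFun h6 t
    have h7 : ((w t : ℤ) : ℝ) = 0 := this
    exact_mod_cast h7
  obtain ⟨z, hz, hzm⟩ := hmin i (by omega)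
  obtain ⟨v, hv0, hv⟩ := H z (hΩr z (hΩm i (by omega) z hz))
  have hv' : v ∈ Per c (toR R) (rad r (i + 1)) z := Per.anti hRR (hrad _ _ (by omega)) z hv
  have hvS : ∀ t, |v t| ≤ S := by
    intro t
    have h1 := hv.1 t
    rw [one_mul] at h1
    have h2 : |v t| ≤ R t := by
      have h3 : (|(v t : ℝ)|) ≤ (R t : ℝ) := h1
      exact_mod_cast h3
    exact h2.trans (hS t)
  have hj : ∀ j : ℕ, j ≤ L → z + j • v ∈ Ω (i + 1) := by
    intro j hj t
    have h1 := hz t
    have h2 := abs_le.1 (hvS t)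
    have h3 : ((j : ℕ) : ℤ) * v t ≤ L * S :=
      (mul_le_mul_of_nonneg_left h2.2 (by positivity)).trans
        (mul_le_mul_of_nonneg_right (by exact_mod_cast hj) hS0)
    have h4 : -((L : ℤ) * S) ≤ ((j : ℕ) : ℤ) * v t := by
      have h5 : ((j : ℕ) : ℤ) * (-S) ≤ ((j : ℕ) : ℤ) * v t :=
        mul_le_mul_of_nonneg_left h2.1 (by positivity)
      have h6 : ((j : ℕ) : ℤ) * S ≤ L * S :=
        mul_le_mul_of_nonneg_right (by exact_mod_cast hj) hS0
      linarith
    have e : ((r : ℤ) - ((i + 1 : ℕ) : ℤ)) * (L * S) = ((r : ℤ) - i) * (L * S) - L * S := by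
      push_cast; ring
    rw [e, Pi.add_apply, Pi.smul_apply, nsmul_eq_mul]
    constructor <;> linarith [h1.1, h1.2]
  have hfr : φ i z ≤ φ (i + 1) z := by
    rw [hzm]
    refine hi.trans (hmle _ _ ?_)
    have := hj 0 (Nat.zero_le _)
    rwa [zero_smul, add_zero] at this
  have hSS : Sp c (toR R) (rad r i) z ≤ Sp c (toR R) (rad r (i + 1)) z :=
    (Submodule.eq_of_le_of_finrank_le (Sp.anti hRR (hrad _ _ (by omega)) z) hfr).ge
  have hle : φ (i + 1) z ≤ φ i z :=
    Submodule.finrank_mono (Sp.anti hRR (hrad _ _ (by omega)) z)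
  have hrad0 : 1 ≤ rad r i := by
    unfold rad
    have : (0 : ℝ) ≤ i * (3 * r / 2 + 2) := by positivity
    linarith
  have hch := chain (c := c) hRR (z := z) (v := v) (a := rad r i) (ρ := rad r (i + 1))
    (by unfold rad; push_cast; nlinarith) hv' hSS L
    (fun j hjL => (hle.trans (hzm.le.trans (hi.trans (hmle _ _ (hj j hjL))))))
  refine ⟨z, v, fun t => (hΩr z (hΩm i (by omega) z hz) t).1, hv0, hv.1, fun j hjL u hu => ?_⟩
  exact hch j hjL u (hu.mono hRR hrad0)

end Pool.Agent.V7H37.HC
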