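import Mathlib
import Pool.Agent.V7H37.HC.Comb

/-! # Repetitions in the code of a map to a group -/

set_option autoImplicit false

namespace Pool.Agent.V7H37.HC

variable {r : ℕ} {A : Type*}

/-- `3 r ^ 2 + 4 r + 3` -/
def kap (r : ℕ) : ℕ := 3 * r ^ 2 + 4 * r + 3

/-- two of the blocks with the sides `k t` at the positions `z + p`, `κ p t < k t`, are equal -/
def Rep (c : (Fin r → ℤ) → A) (k : Fin r → ℕ) (z : Fin r → ℤ) : Prop :=
  ∃ p q : Fin r → ℕ, p ≠ q ∧ (∀ t, kap r * p t < k t) ∧ (∀ t, kap r * q t < k t) ∧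
    ∀ x : Fin r → ℕ, (∀ t, x t < k t) →
      c (fun t => z t + p t + x t) = c (fun t => z t + q t + x t)

/-- functions on a box -/
lemma box_const {X : Type*} {f : (Fin r → ℤ) → X} {z : Fin r → ℤ} {R : Fin r → ℤ}
    (h : ∀ (x : Fin r → ℤ) (t : Fin r), (∀ t, |x t - z t| ≤ R t) →
      (∀ i, |(x + Pi.single t 1 : Fin r → ℤ) i - z i| ≤ R i) → f (x + Pi.single t 1) = f x) :
    ∀ x : Fin r → ℤ, (∀ t, |x t - z t| ≤ R t) → f x = f z := by
  classical
  have key : ∀ (n : ℕ) (x : Fin r → ℤ), (∀ t, |x t - z t| ≤ R t) →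
      (∑ t, |x t - z t|).toNat = n → f x = f z := by
    intro n
    induction n using Nat.strong_induction_on with
    | _ n ih =>
      intro x hx hn
      by_cases hxz : x = z
      · rw [hxz]
      obtain ⟨t, ht⟩ : ∃ t, x t ≠ z t := by
        by_contra hcon
        push Not at hcon
        exact hxz (funext hcon)
      -- a step toward the centre
      have hsum : ∀ y : Fin r → ℤ, (∀ i, i ≠ t → y i = x i) → |y t - z t| < |x t - z t| →
          (∑ t, |y t - z t|).toNat < n := by
        intro y hy hyt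
        have h1 : ∑ t, |y t - z t| < ∑ t, |x t - z t| := by
          refine Finset.sum_lt_sum (fun i _ => ?_) ⟨t, Finset.mem_univ _, hyt⟩
          by_cases hi : i = t
          · rw [hi]; exact hyt.le
          · rw [hy i hi]
        have h2 : 0 ≤ ∑ t, |y t - z t| := Finset.sum_nonneg fun _ _ => abs_nonneg _
        omega
      rcases lt_or_gt_of_ne ht with hlt | hlt
      · set y := x + Pi.single t (1 : ℤ) with hy
        have hyo : ∀ i, i ≠ t → y i = x i := by
          intro i hi
          rw [hy, Pi.add_apply, Pi.single_eq_of_ne hi, add_zero]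
        have hyt : y t = x t + 1 := by rw [hy, Pi.add_apply, Pi.single_eq_same]
        have hlt2 : |y t - z t| < |x t - z t| := by
          rw [hyt, abs_of_nonpos (by omega), abs_of_neg (by omega)]
          omega
        have hyR : ∀ i, |y i - z i| ≤ R i := by
          intro i
          by_cases hi : i = t
          · subst hi
            exact hlt2.le.trans (hx i)
          · rw [hyo i hi]; exact hx i
        rw [← h x t hx hyR]
        exact ih _ (hsum y hyo hlt2) y hyR rfl
      · set y := x - Pi.single t (1 : ℤ) with hy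
        have hyo : ∀ i, i ≠ t → y i = x i := by
          intro i hi
          rw [hy, Pi.sub_apply, Pi.single_eq_of_ne hi, sub_zero]
        have hyt : y t = x t - 1 := by rw [hy, Pi.sub_apply, Pi.single_eq_same]
        have hlt2 : |y t - z t| < |x t - z t| := by
          rw [hyt, abs_of_nonneg (by omega), abs_of_pos (by omega)]
          omega
        have hyR : ∀ i, |y i - z i| ≤ R i := by
          intro i
          by_cases hi : i = t
          · subst hi
            exact hlt2.le.trans (hx i)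
          · rw [hyo i hi]; exact hx i
        have e : y + Pi.single t 1 = x := by rw [hy, sub_add_cancel]
        have h1 := h y t hyR (by rw [e]; exact hx)
        rw [e] at h1
        rw [h1]
        exact ih _ (hsum y hyo hlt2) y hyR rfl
  intro x hx
  exact key _ x hx rfl

/-- the code of a map to a group -/
def gcode {G : Type*} [Group G] (V : (Fin r → ℤ) → G) (u : Fin r → ℤ) : Fin r → G :=
  fun t => (V u)⁻¹ * V (u + Pi.single t 1)

lemma le_one_iff {R : Fin r → ℤ} {x : Fin r → ℤ} : Le (toR R) 1 (toR x) ↔ ∀ t, |x t| ≤ R t := by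
  refine forall_congr' fun t => ?_
  rw [one_mul]
  show |((x t : ℤ) : ℝ)| ≤ ((R t : ℤ) : ℝ) ↔ _
  constructor
  · intro h; exact_mod_cast h
  · intro h; exact_mod_cast h

/-- **Pigeonhole.** -/
theorem pigeon (c : (Fin r → ℤ) → A) {k : Fin r → ℕ} {R : Fin r → ℤ}
    (hR0 : ∀ t, 0 ≤ R t) (hR1 : ∀ t, kap r * R t < k t) (hR2 : ∀ t (p : ℕ), kap r * p < k t → (p : ℤ) ≤ R t)
    (z : Fin r → ℤ) (h : Rep c k (fun t => z t - ((kap r + 1) * R t + 1) / 2)) :
    ∃ w : Fin r → ℤ, w ≠ 0 ∧ w ∈ Per c (toR R) (rad r r) z := by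
  obtain ⟨p, q, hne, hp, hq, hpq⟩ := h
  have hp0 : ∀ t, (p t : ℤ) ≤ R t := fun t => hR2 t _ (hp t)
  have hq0 : ∀ t, (q t : ℤ) ≤ R t := fun t => hR2 t _ (hq t)
  refine ⟨fun t => (q t : ℤ) - p t, fun h0 => hne ?_, le_one_iff.2 fun t => ?_, fun u hu hu' => ?_⟩
  · funext t
    have := congrFun h0 t
    simp only [Pi.zero_apply] at this
    omega
  · have h1 := hp0 t
    have h2 := hq0 t
    rw [abs_le]
    constructor <;> omega
  · -- the positions of the box inside the blocks
    have hrad : ∀ t, rad r r * toR R t = ((kap r : ℝ) - 1) / 2 * R t := by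
      intro t
      show rad r r * (R t : ℝ) = _
      congr 1
      unfold rad kap
      push_cast
      ring
    have hbd : ∀ t, 2 * |u t - z t| ≤ kap r * R t - R t := by
      intro t
      have h1 := hu t
      rw [hrad] at h1
      have h2 : |((u t - z t : ℤ) : ℝ)| ≤ ((kap r : ℝ) - 1) / 2 * R t := h1
      have h3 : (2 : ℝ) * |((u t - z t : ℤ) : ℝ)| ≤ (kap r : ℝ) * R t - R t := by linarith
      exact_mod_cast h3
    have hx : ∀ t, 0 ≤ u t - (z t - ((kap r + 1) * R t + 1) / 2) - p t ∧
        u t - (z t - ((kap r + 1) * R t + 1) / 2) - p t < k t := by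
      intro t
      have h1 := hbd t
      have h2 := hR1 t
      have h3 := hp0 t
      have h4 := hR0 t
      have e : ((kap r : ℤ) + 1) * R t + 1 = kap r * R t + R t + 1 := by ring
      rw [e]
      generalize hy : (kap r : ℤ) * R t = y at *
      have h5 := abs_le.1 (show |u t - z t| ≤ |u t - z t| from le_rfl)
      have h6 := le_abs_self (u t - z t)
      have h7 := neg_abs_le (u t - z t)
      constructor <;> omega
    have h1 := hpq (fun t => (u t - (z t - ((kap r + 1) * R t + 1) / 2) - p t).toNat) (fun t => by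
      have := hx t
      omega)
    have e1 : (fun t => z t - ((kap r + 1) * R t + 1) / 2 + p t +
        ((u t - (z t - ((kap r + 1) * R t + 1) / 2) - p t).toNat : ℕ)) = u := by
      funext t
      rw [Int.toNat_of_nonneg (hx t).1]
      ring
    have e2 : (fun t => z t - ((kap r + 1) * R t + 1) / 2 + q t +
        ((u t - (z t - ((kap r + 1) * R t + 1) / 2) - p t).toNat : ℕ)) =
        u + fun t => (q t : ℤ) - p t := by
      funext t
      rw [Int.toNat_of_nonneg (hx t).1, Pi.add_apply]
      ring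
    rw [e1, e2] at h1
    exact h1.symm

/-- **Long powers from repetitions in one large window.** -/
theorem group_strip (G : Type*) [Group G] (k : Fin r → ℕ) :
    ∃ S : ℤ, ∀ L : ℕ, ∃ M : ℕ, ∀ (V : (Fin r → ℤ) → G) (N : Fin r → ℤ),
      (∀ z : Fin r → ℤ, (∀ i, N i ≤ z i ∧ z i ≤ N i + M) → Rep (gcode V) k z) →
      ∃ z v : Fin r → ℤ, (∀ i, N i ≤ z i) ∧ v ≠ 0 ∧ (∀ i, |v i| ≤ S) ∧
        ∀ j : ℕ, j ≤ L → V (z + j • v) = V z * ((V z)⁻¹ * V (z + v)) ^ j := by
  classical
  by_cases hk : ∃ t, k t = 0
  · obtain ⟨t, ht⟩ := hk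
    refine ⟨0, fun L => ⟨0, fun V N h => ?_⟩⟩
    obtain ⟨p, q, -, hp, -⟩ := h N (fun i => ⟨le_rfl, by simp⟩)
    have := hp t
    omega
  push Not at hk
  have hkap : 0 < kap r := by unfold kap; omega
  set R : Fin r → ℤ := fun t => (((k t - 1) / kap r : ℕ) : ℤ) with hR
  have hR0 : ∀ t, 0 ≤ R t := fun t => Int.natCast_nonneg _
  have hR1 : ∀ t, kap r * R t < k t := by
    intro t
    have h1 := Nat.mul_div_le (k t - 1) (kap r)
    have h2 := hk t
    have h3 : kap r * ((k t - 1) / kap r) < k t := by omega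
    show (kap r : ℤ) * (((k t - 1) / kap r : ℕ) : ℤ) < (k t : ℤ)
    exact_mod_cast h3
  have hR2 : ∀ t (p : ℕ), kap r * p < k t → (p : ℤ) ≤ R t := by
    intro t p hp
    have h1 : p ≤ (k t - 1) / kap r := by
      rw [Nat.le_div_iff_mul_le hkap, mul_comm]
      omega
    show (p : ℤ) ≤ (((k t - 1) / kap r : ℕ) : ℤ)
    exact_mod_cast h1
  set S : ℤ := ∑ t, R t with hS
  have hRS : ∀ t, R t ≤ S := fun t =>
    Finset.single_le_sum (f := R) (fun i _ => hR0 i) (Finset.mem_univ t)
  have hS0 : 0 ≤ S := Finset.sum_nonneg fun i _ => hR0 i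
  refine ⟨S, fun L => ?_⟩
  set X : Fin r → ℤ := fun t => ((kap r + 1) * R t + 1) / 2 with hX
  have hX0 : ∀ t, 0 ≤ X t := fun t => by
    have := hR0 t
    show 0 ≤ ((kap r + 1) * R t + 1) / 2
    positivity
  have hXS : ∀ t, X t ≤ (kap r + 1) * S + 1 := by
    intro t
    have h1 : (kap r + 1 : ℤ) * R t ≤ (kap r + 1) * S :=
      mul_le_mul_of_nonneg_left (hRS t) (by positivity)
    have h2 : (0 : ℤ) ≤ (kap r + 1) * R t := mul_nonneg (by positivity) (hR0 t)
    show ((kap r + 1) * R t + 1) / 2 ≤ (kap r + 1) * S + 1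
    omega
  set M : ℤ := 2 * r * (L * S) with hM
  have hM0 : 0 ≤ M := by positivity
  have hMM : 0 ≤ M + (kap r + 1) * S + 1 := by positivity
  refine ⟨(M + (kap r + 1) * S + 1).toNat, fun V N hrep => ?_⟩
  rw [Int.toNat_of_nonneg hMM] at hrep
  obtain ⟨z, v, hz, hv, hvR, hper⟩ := strip (c := gcode V) hR0 hRS L (le_refl M)
    (fun t => N t + X t) (fun z hz => by
      refine pigeon (gcode V) hR0 hR1 hR2 z (hrep _ fun t => ?_)
      have h1 := hz t
      have h2 := hXS t
      show N t ≤ z t - X t ∧ z t - X t ≤ N t + (M + (kap r + 1) * S + 1)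
      constructor <;> linarith [h1.1, h1.2, hX0 t])
  have hvR' := le_one_iff.1 hvR
  refine ⟨z, v, fun t => ?_, hv, fun t => (hvR' t).trans (hRS t), ?_⟩
  · have h1 := hz t
    have h2 := hX0 t
    linarith
  -- iterates
  have hjper : ∀ j : ℕ, j ≤ L → ∀ u : Fin r → ℤ, (∀ t, |u t - z t| ≤ R t) →
      gcode V (u + j • v) = gcode V u := by
    intro j
    induction j with
    | zero => intro _ u _; rw [zero_smul, add_zero]
    | succ j ih =>
      intro hj u hu
      have e : u + (j + 1) • v = u + j • v + v := by rw [add_smul, one_smul, add_assoc]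
      rw [e, hper j (by omega) (u + j • v) ?_, ih (by omega) u hu]
      have e2 : u + j • v - (z + j • v) = u - z := by abel
      rw [e2]
      exact le_one_iff.2 hu
  intro j
  induction j with
  | zero => intro _; rw [zero_smul, add_zero, pow_zero, mul_one]
  | succ j ih =>
    intro hj
    have hstep : ∀ x : Fin r → ℤ, (∀ i, |x i - z i| ≤ R i) →
        V (x + j • v) * (V x)⁻¹ = V (z + j • v) * (V z)⁻¹ := by
      refine box_const (f := fun x => V (x + j • v) * (V x)⁻¹) ?_
      intro x t hx _
      have he := congrFun (hjper j (by omega) x hx) t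
      unfold gcode at he
      have e1 : V (x + j • v + Pi.single t 1) = V (x + j • v) * ((V x)⁻¹ * V (x + Pi.single t 1)) := by
        rw [← he]; group
      have e2 : x + Pi.single t 1 + j • v = x + j • v + Pi.single t 1 := by abel
      show V (x + Pi.single t 1 + j • v) * (V (x + Pi.single t 1))⁻¹ = V (x + j • v) * (V x)⁻¹
      rw [e2, e1]; group
    have h1 := hstep (z + v) (fun i => by
      rw [Pi.add_apply, add_sub_cancel_left]; exact hvR' i)
    have e2 : z + (j + 1) • v = z + v + j • v := by rw [add_smul, one_smul]; abel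
    have h3 : V (z + v + j • v) = V (z + j • v) * (V z)⁻¹ * V (z + v) := by
      rw [← h1]; group
    rw [e2, h3, ih (by omega), pow_succ]
    simp only [mul_assoc]

end Pool.Agent.V7H37.HC
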